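import Pool.Agent.helper1.T1N.SpecN

/-!
# Project T1 (MP_07c750_an), block N, row NL2: the large sieve, integral form
-/

set_option autoImplicit false

open MeasureTheory Finset

namespace Pool.Agent.T1N

lemma NL2_i1 (w : ℝ → ℝ) (hwc : Continuous w) (hwi : Integrable w) (hee : Continuous ee) (hn : ∀ x, ‖ee x‖ = 1) (T : ℝ) (hT : 0 < T) (a : ℝ) :
    Integrable (fun t : ℝ => (w (t / T) : ℂ) * ee (t * a)) := by
  have h1 : Integrable (fun t : ℝ => w (t / T)) := hwi.comp_div hT.ne'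
  refine h1.mono ?_ ?_
  · apply Continuous.aestronglyMeasurable
    exact (Complex.continuous_ofReal.comp (hwc.comp (continuous_id.div_const T))).mul (hee.comp (continuous_id.mul continuous_const))
  · refine Filter.Eventually.of_forall fun t => ?_
    rw [norm_mul, hn, mul_one, Complex.norm_real]

lemma NL2_i2 (w : ℝ → ℝ) (T : ℝ) (hT : 0 < T) (a : ℝ) :
    ∫ t : ℝ, (w (t / T) : ℂ) * ee (t * a) = (T : ℂ) * ∫ t : ℝ, (w t : ℂ) * ee (T * a * t) := by
  have h := MeasureTheory.Measure.integral_comp_div (fun t : ℝ => (w t : ℂ) * ee (T * a * t)) T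
  rw [abs_of_pos hT, Complex.real_smul] at h
  rw [← h]
  congr 1
  funext t
  congr 2
  field_simp

lemma NL2_i3 (w : ℝ → ℝ) (hwc : Continuous w) (hwi : Integrable w) (hee : Continuous ee) (hn : ∀ x, ‖ee x‖ = 1)
    (hadd : ∀ x y, ee (x + y) = ee x * ee y) (T H : ℝ) (hT : 0 < T) (hH : 0 < H) (a b : ℝ) :
    Integrable (fun p : ℝ × ℝ => ((w (p.1 / T) * w (p.2 / H) : ℝ) : ℂ) * ee (p.1 * a + p.2 * b)) ∧
    ∫ p : ℝ × ℝ, ((w (p.1 / T) * w (p.2 / H) : ℝ) : ℂ) * ee (p.1 * a + p.2 * b) =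
      ((T : ℂ) * ∫ t : ℝ, (w t : ℂ) * ee (T * a * t)) * ((H : ℂ) * ∫ t : ℝ, (w t : ℂ) * ee (H * b * t)) := by
  have e : (fun p : ℝ × ℝ => ((w (p.1 / T) * w (p.2 / H) : ℝ) : ℂ) * ee (p.1 * a + p.2 * b)) =
      fun p : ℝ × ℝ => ((w (p.1 / T) : ℂ) * ee (p.1 * a)) * ((w (p.2 / H) : ℂ) * ee (p.2 * b)) := by
    funext p
    rw [hadd]
    push_cast
    ring
  rw [e]
  constructor
  · exact (NL2_i1 w hwc hwi hee hn T hT a).mul_prod (NL2_i1 w hwc hwi hee hn H hH b)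
  · have h := integral_prod_mul (μ := (volume : Measure ℝ)) (ν := (volume : Measure ℝ)) (fun t : ℝ => (w (t / T) : ℂ) * ee (t * a)) (fun t : ℝ => (w (t / H) : ℂ) * ee (t * b))
    rw [← NL2_i2 w T hT a, ← NL2_i2 w H hH b]
    exact h

lemma NL2_sq {ι : Type} (s : Finset ι) (c : ι → ℂ) (x y : ι → ℝ) (hadd : ∀ x y, ee (x + y) = ee x * ee y)
    (hconj : ∀ x : ℝ, (starRingEnd ℂ) (ee x) = ee (-x)) (t η : ℝ) :
    ((‖F2 s c x y t η‖ ^ 2 : ℝ) : ℂ) = ∑ k ∈ s, ∑ k' ∈ s, (c k * (starRingEnd ℂ) (c k')) * ee (t * (x k - x k') + η * (y k - y k')) := by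
  rw [Complex.ofReal_pow, ← Complex.mul_conj']
  unfold F2
  rw [map_sum, Finset.sum_mul_sum]
  refine Finset.sum_congr rfl fun k _ => Finset.sum_congr rfl fun k' _ => ?_
  rw [map_mul, hconj]
  have e : t * (x k - x k') + η * (y k - y k') = (t * x k + η * y k) + -(t * x k' + η * y k') := by ring
  rw [e, hadd (t * x k + η * y k)]
  ring

theorem NL2_proof (hNFJ : NFJ_stmt) (hNEE : NEE_stmt) : NL2_stmt := by
  classical
  obtain ⟨w, C, hC, hwc, hwi, hw0, hw1, hwb, hwz⟩ := hNFJ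
  obtain ⟨hn, hadd, hconj, -, hee, -, hF2c⟩ := hNEE
  refine ⟨C ^ 2, one_le_pow₀ hC, ?_⟩
  intro ι s c x y T H hc hT hH
  have hC0 : 0 ≤ C := by linarith
  obtain ⟨V, hV⟩ : ∃ V : ℝ → ℂ, ∀ a, V a = ∫ t : ℝ, (w t : ℂ) * ee (a * t) := ⟨_, fun _ => rfl⟩
  have hVb : ∀ a, ‖V a‖ ≤ C := fun a => by rw [hV]; exact hwb a
  have hVz : ∀ a, 1 ≤ |a| → V a = 0 := fun a ha => by rw [hV]; exact hwz a ha
  obtain ⟨W, hW⟩ : ∃ W : ℝ × ℝ → ℝ, ∀ p, W p = w (p.1 / T) * w (p.2 / H) := ⟨_, fun _ => rfl⟩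
  have hW0 : ∀ p, 0 ≤ W p := fun p => by rw [hW]; exact mul_nonneg (hw0 _) (hw0 _)
  have hWc : Continuous W := by
    have : W = fun p => w (p.1 / T) * w (p.2 / H) := funext hW
    rw [this]
    exact (hwc.comp (continuous_fst.div_const T)).mul (hwc.comp (continuous_snd.div_const H))
  have hFc : Continuous fun p : ℝ × ℝ => F2 s c x y p.1 p.2 := hF2c ι s c x y
  have hI : ∀ a b : ℝ, Integrable (fun p : ℝ × ℝ => ((W p : ℝ) : ℂ) * ee (p.1 * a + p.2 * b)) ∧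
      ∫ p : ℝ × ℝ, ((W p : ℝ) : ℂ) * ee (p.1 * a + p.2 * b) = ((T : ℂ) * V (T * a)) * ((H : ℂ) * V (H * b)) := by
    intro a b
    have h := NL2_i3 w hwc hwi hee hn hadd T H hT hH a b
    rw [hV, hV]
    simp only [hW]
    exact h
  have hpt : ∀ p : ℝ × ℝ, ((W p * ‖F2 s c x y p.1 p.2‖ ^ 2 : ℝ) : ℂ) =
      ∑ k ∈ s, ∑ k' ∈ s, (c k * (starRingEnd ℂ) (c k')) * (((W p : ℝ) : ℂ) * ee (p.1 * (x k - x k') + p.2 * (y k - y k'))) := by
    intro p
    rw [Complex.ofReal_mul, NL2_sq s c x y hadd hconj, Finset.mul_sum]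
    refine Finset.sum_congr rfl fun k _ => ?_
    rw [Finset.mul_sum]
    refine Finset.sum_congr rfl fun k' _ => ?_
    ring
  have hint : Integrable (fun p : ℝ × ℝ => ((W p * ‖F2 s c x y p.1 p.2‖ ^ 2 : ℝ) : ℂ)) := by
    have : (fun p : ℝ × ℝ => ((W p * ‖F2 s c x y p.1 p.2‖ ^ 2 : ℝ) : ℂ)) = fun p =>
        ∑ k ∈ s, ∑ k' ∈ s, (c k * (starRingEnd ℂ) (c k')) * (((W p : ℝ) : ℂ) * ee (p.1 * (x k - x k') + p.2 * (y k - y k'))) := funext hpt
    rw [this]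
    exact integrable_finsetSum _ fun k _ => integrable_finsetSum _ fun k' _ => (hI _ _).1.const_mul _
  have hintR : Integrable (fun p : ℝ × ℝ => W p * ‖F2 s c x y p.1 p.2‖ ^ 2) := by
    have h := hint.re
    exact h
  have hval : ((∫ p : ℝ × ℝ, W p * ‖F2 s c x y p.1 p.2‖ ^ 2 : ℝ) : ℂ) =
      ∑ k ∈ s, ∑ k' ∈ s, (c k * (starRingEnd ℂ) (c k')) * (((T : ℂ) * V (T * (x k - x k'))) * ((H : ℂ) * V (H * (y k - y k')))) := by
    rw [← integral_complex_ofReal]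
    have : (fun p : ℝ × ℝ => ((W p * ‖F2 s c x y p.1 p.2‖ ^ 2 : ℝ) : ℂ)) = fun p =>
        ∑ k ∈ s, ∑ k' ∈ s, (c k * (starRingEnd ℂ) (c k')) * (((W p : ℝ) : ℂ) * ee (p.1 * (x k - x k') + p.2 * (y k - y k'))) := funext hpt
    rw [this, integral_finsetSum]
    · refine Finset.sum_congr rfl fun k _ => ?_
      rw [integral_finsetSum]
      · refine Finset.sum_congr rfl fun k' _ => ?_
        rw [integral_const_mul, (hI _ _).2]
      · exact fun k' _ => (hI _ _).1.const_mul _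
    · exact fun k _ => integrable_finsetSum _ fun k' _ => (hI _ _).1.const_mul _
  have hterm : ∀ q ∈ s ×ˢ s, ‖(c q.1 * (starRingEnd ℂ) (c q.2)) * (((T : ℂ) * V (T * (x q.1 - x q.2))) * ((H : ℂ) * V (H * (y q.1 - y q.2))))‖ ≤
      if |x q.1 - x q.2| ≤ 1 / T ∧ |y q.1 - y q.2| ≤ 1 / H then C ^ 2 * T * H else 0 := by
    intro q hq
    rw [Finset.mem_product] at hq
    split_ifs with hcl
    · rw [norm_mul, norm_mul, norm_mul, norm_mul, norm_mul, Complex.norm_real, Complex.norm_real, Real.norm_of_nonneg hT.le, Real.norm_of_nonneg hH.le,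
        RCLike.norm_conj]
      have a1 := hc q.1 hq.1
      have a2 := hc q.2 hq.2
      have a3 := hVb (T * (x q.1 - x q.2))
      have a4 := hVb (H * (y q.1 - y q.2))
      have b1 : ‖c q.1‖ * ‖c q.2‖ ≤ 1 := mul_le_one₀ a1 (norm_nonneg _) a2
      have b2 : T * ‖V (T * (x q.1 - x q.2))‖ ≤ T * C := mul_le_mul_of_nonneg_left a3 hT.le
      have b3 : H * ‖V (H * (y q.1 - y q.2))‖ ≤ H * C := mul_le_mul_of_nonneg_left a4 hH.le
      have b4 := mul_le_mul b2 b3 (by positivity) (by positivity)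
      have b5 := mul_le_mul b1 b4 (by positivity) zero_le_one
      calc _ ≤ 1 * (T * C * (H * C)) := b5
        _ = C ^ 2 * T * H := by ring
    · have hz : V (T * (x q.1 - x q.2)) = 0 ∨ V (H * (y q.1 - y q.2)) = 0 := by
        rw [not_and_or, not_le, not_le] at hcl
        rcases hcl with h | h
        · left
          apply hVz
          rw [abs_mul, abs_of_pos hT]
          rw [div_lt_iff₀ hT] at h
          linarith
        · right
          apply hVz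
          rw [abs_mul, abs_of_pos hH]
          rw [div_lt_iff₀ hH] at h
          linarith
      rcases hz with h | h
      · rw [h]; simp
      · rw [h]; simp
  have hbound : ∫ p : ℝ × ℝ, W p * ‖F2 s c x y p.1 p.2‖ ^ 2 ≤ C ^ 2 * T * H * (Cl s x y T H : ℝ) := by
    have h0 : 0 ≤ ∫ p : ℝ × ℝ, W p * ‖F2 s c x y p.1 p.2‖ ^ 2 := integral_nonneg fun p => mul_nonneg (hW0 p) (by positivity)
    have h1 : ∫ p : ℝ × ℝ, W p * ‖F2 s c x y p.1 p.2‖ ^ 2 = ‖((∫ p : ℝ × ℝ, W p * ‖F2 s c x y p.1 p.2‖ ^ 2 : ℝ) : ℂ)‖ := by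
      rw [Complex.norm_real, Real.norm_of_nonneg h0]
    rw [h1, hval, ← Finset.sum_product']
    refine (norm_sum_le _ _).trans ((Finset.sum_le_sum hterm).trans (le_of_eq ?_))
    rw [← Finset.sum_filter, Finset.sum_const, nsmul_eq_mul, mul_comm]
    unfold Cl
    congr 3
  refine le_trans ?_ hbound
  have hms : MeasurableSet (Set.Icc (-T) T ×ˢ Set.Icc (-H) H : Set (ℝ × ℝ)) := measurableSet_Icc.prod measurableSet_Icc
  have hcomp : IsCompact (Set.Icc (-T) T ×ˢ Set.Icc (-H) H : Set (ℝ × ℝ)) := isCompact_Icc.prod isCompact_Icc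
  have hFi : IntegrableOn (fun p : ℝ × ℝ => ‖F2 s c x y p.1 p.2‖ ^ 2) (Set.Icc (-T) T ×ˢ Set.Icc (-H) H) :=
    (hFc.norm.pow 2).continuousOn.integrableOn_compact hcomp
  refine (setIntegral_mono_on hFi hintR.integrableOn hms ?_).trans
    (setIntegral_le_integral hintR (Filter.Eventually.of_forall fun p => mul_nonneg (hW0 p) (by positivity)))
  intro p hp
  have hp1 : |p.1 / T| ≤ 1 := by
    rw [abs_div, abs_of_pos hT, div_le_one hT]
    exact abs_le.2 hp.1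
  have hp2 : |p.2 / H| ≤ 1 := by
    rw [abs_div, abs_of_pos hH, div_le_one hH]
    exact abs_le.2 hp.2
  have h1 : 1 ≤ W p := by
    rw [hW]
    exact one_le_mul_of_one_le_of_one_le (hw1 _ hp1) (hw1 _ hp2)
  have h2 : 0 ≤ ‖F2 s c x y p.1 p.2‖ ^ 2 := by positivity
  calc ‖F2 s c x y p.1 p.2‖ ^ 2 = 1 * ‖F2 s c x y p.1 p.2‖ ^ 2 := (one_mul _).symm
    _ ≤ W p * ‖F2 s c x y p.1 p.2‖ ^ 2 := mul_le_mul_of_nonneg_right h1 h2

end Pool.Agent.T1N
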